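import Mathlib

/-! # Semigroups with bounded generators -/

set_option autoImplicit false

open Filter Topology

namespace Pool.Agent.Q141.Cog

variable {E : Type} [NormedAddCommGroup E] [NormedSpace ℂ E] [CompleteSpace E]

/-- the semigroup generated by `A` -/
noncomputable def TT (A : E →L[ℂ] E) (t : ℝ) : E →L[ℂ] E := NormedSpace.exp ((t : ℂ) • A)

omit [CompleteSpace E] in
theorem TT_zero (A : E →L[ℂ] E) : TT A 0 = 1 := by
  rw [TT, Complex.ofReal_zero, zero_smul, NormedSpace.exp_zero]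

theorem TT_add (A : E →L[ℂ] E) (s t : ℝ) : TT A (s + t) = TT A s * TT A t := by
  let _ : NormedAlgebra ℚ (E →L[ℂ] E) := NormedAlgebra.restrictScalars ℚ ℂ _
  rw [TT, TT, TT, Complex.ofReal_add, add_smul]
  exact NormedSpace.exp_add_of_commute (((Commute.refl A).smul_left _).smul_right _)

theorem TT_cont (A : E →L[ℂ] E) (x : E) : Continuous fun t : ℝ => TT A t x := by
  have h : Continuous fun t : ℝ => TT A t := by
    unfold TT
    let _ : NormedAlgebra ℚ (E →L[ℂ] E) := NormedAlgebra.restrictScalars ℚ ℂ _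
    exact NormedSpace.exp_continuous.comp (by fun_prop)
  exact h.clm_apply continuous_const

theorem TT_deriv (A : E →L[ℂ] E) (x : E) :
    Tendsto (fun t : ℝ => t⁻¹ • (TT A t x - x)) (𝓝[>] 0) (𝓝 (A x)) := by
  have h1 : HasDerivAt (fun u : ℂ => NormedSpace.exp (u • A))
      (NormedSpace.exp ((0 : ℂ) • A) * A) (0 : ℂ) := hasDerivAt_exp_smul_const A 0
  have h2 : HasDerivAt (fun u : ℂ => NormedSpace.exp (u • A))
      (NormedSpace.exp ((0 : ℂ) • A) * A) ((0 : ℝ) : ℂ) := by
    rw [Complex.ofReal_zero]; exact h1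
  have h3 : HasDerivAt (fun t : ℝ => ((t : ℝ) : ℂ)) (1 : ℂ) (0 : ℝ) :=
    Complex.ofRealCLM.hasDerivAt
  have h4 := HasDerivAt.scomp (0 : ℝ) h2 h3
  rw [one_smul, zero_smul, NormedSpace.exp_zero, one_mul] at h4
  have h5 : HasDerivAt (fun t : ℝ => TT A t x) (A x) 0 := by
    have := ((ContinuousLinearMap.apply ℂ E x).restrictScalars ℝ).hasFDerivAt.comp_hasDerivAt
      (0 : ℝ) h4
    exact this
  have h6 := h5.tendsto_slope_zero_right
  simp only [zero_add] at h6
  rw [TT_zero] at h6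
  exact h6

theorem TT_iff (A : E →L[ℂ] E) (x y : E) :
    Tendsto (fun t : ℝ => t⁻¹ • (TT A t x - x)) (𝓝[>] 0) (𝓝 y) ↔ y = A x := by
  constructor
  · intro h
    exact tendsto_nhds_unique h (TT_deriv A x)
  · rintro rfl
    exact TT_deriv A x

end Pool.Agent.Q141.Cog
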