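import Pool.Agent.Q141.Cog.Ops
import Pool.Agent.Q141.Cog.Gen

/-! # The closed subspace and the conclusion -/

set_option autoImplicit false

open Set Filter Topology
open scoped BoundedContinuousFunction

namespace Pool.Agent.Q141.Cog

/-- the closed span of the functions `LL φ` -/
noncomputable def EE : Submodule ℂ BB := (LinearMap.range (LL : R →ₗ[ℂ] BB)).topologicalClosure

theorem EE_closed : IsClosed (EE : Set BB) := Submodule.isClosed_topologicalClosure _

/-- the Banach space -/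
def ET : Type := ↥EE

noncomputable instance : NormedAddCommGroup ET := inferInstanceAs (NormedAddCommGroup ↥EE)
noncomputable instance : NormedSpace ℂ ET := inferInstanceAs (NormedSpace ℂ ↥EE)
instance : CompleteSpace ET := EE_closed.completeSpace_coe

/-- the inclusion -/
noncomputable def io : ET →L[ℂ] BB := LinearMap.mkContinuous
  { toFun := fun x => (Subtype.val x : BB), map_add' := fun _ _ => rfl, map_smul' := fun _ _ => rfl }
  1 (fun x => by rw [one_mul]; exact le_rfl)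

theorem io_norm (x : ET) : ‖io x‖ = ‖x‖ := rfl

theorem io_mem (x : ET) : io x ∈ EE := Subtype.property x

theorem io_inj {x y : ET} (h : io x = io y) : x = y := Subtype.ext h

theorem LL_mem (φ : R) : LL φ ∈ EE := Submodule.le_topologicalClosure _ ⟨φ, rfl⟩

theorem EE_ind (P : BB → Prop) (hc : IsClosed {F | P F}) (h : ∀ φ, P (LL φ)) :
    ∀ F ∈ EE, P F := by
  intro F hF
  have h1 : F ∈ closure (Set.range LL) := hF
  have h2 : closure (Set.range LL) ⊆ {F | P F} := by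
    apply closure_minimal _ hc
    rintro _ ⟨φ, rfl⟩
    exact h φ
  exact h2 h1

theorem map_EE (A : BB →L[ℂ] BB) (a : R) (h : ∀ φ, A (LL φ) = LL (a * φ)) :
    ∀ F ∈ EE, A F ∈ EE :=
  EE_ind (fun F => A F ∈ EE) (EE_closed.preimage A.continuous)
    (fun φ => by rw [h]; exact LL_mem _)

/-- restriction of an operator -/
noncomputable def rs (A : BB →L[ℂ] BB) (hA : ∀ F ∈ EE, A F ∈ EE) : ET →L[ℂ] ET :=
  LinearMap.mkContinuous
    { toFun := fun x => (⟨A (io x), hA _ (io_mem x)⟩ : ↥EE)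
      map_add' := fun x y => Subtype.ext (map_add A (io x) (io y))
      map_smul' := fun c x => Subtype.ext (map_smul A c (io x)) } ‖A‖
    (fun _ => A.le_opNorm _)

theorem rs_apply (A : BB →L[ℂ] BB) (hA : ∀ F ∈ EE, A F ∈ EE) (x : ET) :
    io (rs A hA x) = A (io x) := rfl

theorem exp_intertwine (X : ET →L[ℂ] ET) (Y : BB →L[ℂ] BB) (h : ∀ x : ET, io (X x) = Y (io x))
    (x : ET) : io (NormedSpace.exp X x) = NormedSpace.exp Y (io x) := by
  have hk : ∀ k : ℕ, io ((X ^ k) x) = (Y ^ k) (io x) := by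
    intro k
    induction k with
    | zero => rfl
    | succ k ih =>
      have e1 : (X ^ (k + 1)) x = X ((X ^ k) x) := by rw [pow_succ']; rfl
      have e2 : (Y ^ (k + 1)) (io x) = Y ((Y ^ k) (io x)) := by rw [pow_succ']; rfl
      rw [e1, e2, h, ih]
  have h1 : HasSum (fun k : ℕ => ((k.factorial : ℂ)⁻¹) • X ^ k) (NormedSpace.exp X) :=
    NormedSpace.exp_series_hasSum_exp' (𝕂 := ℂ) X
  have h2 : HasSum (fun k : ℕ => ((k.factorial : ℂ)⁻¹) • Y ^ k) (NormedSpace.exp Y) :=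
    NormedSpace.exp_series_hasSum_exp' (𝕂 := ℂ) Y
  have h3 := (io.comp (ContinuousLinearMap.apply ℂ ET x)).hasSum h1
  have h4 := (ContinuousLinearMap.apply ℂ BB (io x)).hasSum h2
  have e : (fun b : ℕ => (io.comp (ContinuousLinearMap.apply ℂ ET x))
        (((b.factorial : ℂ)⁻¹) • X ^ b)) =
      fun b : ℕ => (ContinuousLinearMap.apply ℂ BB (io x)) (((b.factorial : ℂ)⁻¹) • Y ^ b) := by
    funext k
    show io ((((k.factorial : ℂ)⁻¹) • X ^ k) x) = (((k.factorial : ℂ)⁻¹) • Y ^ k) (io x)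
    rw [smul_apply, smul_apply, map_smul, hk]
  rw [e] at h3
  exact h3.unique h4

theorem memA : ∀ F ∈ EE, A0 F ∈ EE := map_EE A0 _ A0_LL
theorem memB : ∀ F ∈ EE, B0 F ∈ EE := map_EE B0 _ B0_LL

/-- the generator -/
noncomputable def AE : ET →L[ℂ] ET := rs A0 memA
/-- its inverse -/
noncomputable def BE : ET →L[ℂ] ET := rs B0 memB

theorem AE_BE (x : ET) : AE (BE x) = x := by
  apply io_inj
  exact EE_ind (fun F => A0 (B0 F) = F) (isClosed_eq (by fun_prop) continuous_id) AB (io x)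
    (io_mem x)

theorem BE_AE (x : ET) : BE (AE x) = x := by
  apply io_inj
  exact EE_ind (fun F => B0 (A0 F) = F) (isClosed_eq (by fun_prop) continuous_id) BA (io x)
    (io_mem x)

theorem TT_norm (X : ET →L[ℂ] ET) (Y : BB →L[ℂ] BB) (h : ∀ x : ET, io (X x) = Y (io x))
    (hY : ∀ (t : ℝ) (φ : R), ‖NormedSpace.exp ((t : ℂ) • Y) (LL φ)‖ ≤ ‖LL φ‖) (t : ℝ) :
    ‖TT X t‖ ≤ 1 := by
  apply ContinuousLinearMap.opNorm_le_bound _ zero_le_one
  intro x
  rw [one_mul]
  have h1 := exp_intertwine ((t : ℂ) • X) ((t : ℂ) • Y) (by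
    intro x
    rw [smul_apply, smul_apply, map_smul, h]) x
  have h2 : ‖TT X t x‖ = ‖NormedSpace.exp ((t : ℂ) • Y) (io x)‖ := by
    rw [← h1]; rfl
  rw [h2, ← io_norm x]
  exact EE_ind (fun F => ‖NormedSpace.exp ((t : ℂ) • Y) F‖ ≤ ‖F‖)
    (isClosed_le (by fun_prop) continuous_norm) (hY t) (io x) (io_mem x)

theorem AE_norm : ‖AE‖ < 1 := by
  refine lt_of_le_of_lt ?_ A0_norm
  apply ContinuousLinearMap.opNorm_le_bound _ (norm_nonneg _)
  intro x
  exact A0.le_opNorm _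

/-- the cogenerator -/
noncomputable def VE : ET →L[ℂ] ET := -((1 + AE) * ((Units.oneSub AE AE_norm)⁻¹ : (ET →L[ℂ] ET)ˣ))

theorem VE_apply (x : ET) : VE (AE x - x) = AE x + x := by
  have h1 : (((Units.oneSub AE AE_norm)⁻¹ : (ET →L[ℂ] ET)ˣ) : ET →L[ℂ] ET) * (1 - AE) = 1 := by
    have := (Units.oneSub AE AE_norm).inv_mul
    rwa [Units.val_oneSub] at this
  have h2 : AE x - x = (1 - AE) (-x) := by
    rw [map_neg]
    show AE x - x = -(x - AE x)
    abel
  have h3 : (((Units.oneSub AE AE_norm)⁻¹ : (ET →L[ℂ] ET)ˣ) : ET →L[ℂ] ET) ((1 - AE) (-x)) = -x := by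
    have := congrArg (fun F : ET →L[ℂ] ET => F (-x)) h1
    exact this
  rw [h2]
  show -((1 + AE) ((((Units.oneSub AE AE_norm)⁻¹ : (ET →L[ℂ] ET)ˣ) : ET →L[ℂ] ET)
    ((1 - AE) (-x)))) = AE x + x
  rw [h3, map_neg, neg_neg]
  show x + AE x = AE x + x
  abel

/-- the element of `EE` given by `φ` -/
noncomputable def el (φ : R) : ET := (⟨LL φ, LL_mem φ⟩ : ↥EE)

theorem VE_el (φ : R) : VE (el φ) = el (vR * φ) := by
  have h1 : AE (el (rR * φ)) - el (rR * φ) = el φ := io_inj (A0_sub φ)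
  have h2 : AE (el (rR * φ)) + el (rR * φ) = el (vR * φ) := io_inj (A0_add φ)
  rw [← h1, VE_apply, h2]

theorem VE_pow (n : ℕ) (φ : R) : (VE ^ n) (el φ) = el (vR ^ n * φ) := by
  induction n with
  | zero => simp
  | succ n ih =>
    have e : (VE ^ (n + 1)) (el φ) = VE ((VE ^ n) (el φ)) := by rw [pow_succ']; rfl
    rw [e, ih, VE_el, ← mul_assoc, ← pow_succ']

theorem unbounded (C : ℝ) (h : ∀ n : ℕ, ‖VE ^ n‖ ≤ C) : False := by
  obtain ⟨n, hn⟩ := small (1 / (8 * (|C| + 1))) (by positivity)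
  have h1 : (VE ^ n) (el (wR ^ n)) = el 1 := by
    rw [VE_pow, ← mul_pow, vw, one_pow]
  have h2 : ‖el 1‖ ≤ ‖VE ^ n‖ * ‖el (wR ^ n)‖ := by
    rw [← h1]
    exact ContinuousLinearMap.le_opNorm _ _
  have h3 : (1 / 4 : ℝ) ≤ ‖el 1‖ := LL_one
  have h4 : ‖el (wR ^ n)‖ ≤ 1 / (8 * (|C| + 1)) := hn
  have h5 : ‖VE ^ n‖ * ‖el (wR ^ n)‖ ≤ (|C| + 1) * (1 / (8 * (|C| + 1))) := by
    apply mul_le_mul _ h4 (norm_nonneg _) (by positivity)
    have := h n
    have := le_abs_self C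
    linarith
  have h6 : (|C| + 1) * (1 / (8 * (|C| + 1))) = 1 / 8 := by
    field_simp
  rw [h6] at h5
  linarith

end Pool.Agent.Q141.Cog
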