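import Pool.Agent.Q141.Cog.Space

/-! # The operators and the final estimate -/

set_option autoImplicit false

open MeasureTheory Set Filter Topology
open scoped BoundedContinuousFunction

namespace Pool.Agent.Q141.Cog

/-- the function `y ↦ y` -/
noncomputable def idR : R := ⟨fun y => ((y : ℝ) : ℂ), by fun_prop⟩

/-- the function `y ↦ 1 / y` -/
noncomputable def invR : R := ⟨fun y => (((y : ℝ)⁻¹ : ℝ) : ℂ), by
  have : Continuous fun y : K => ((y : ℝ)⁻¹ : ℝ) := by
    refine Continuous.inv₀ (by fun_prop) ?_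
    intro y
    exact (Kpos y).ne'
  fun_prop⟩

theorem idR_apply (y : K) : idR y = ((y : ℝ) : ℂ) := rfl
theorem invR_apply (y : K) : invR y = (((y : ℝ)⁻¹ : ℝ) : ℂ) := rfl

/-- multiplication by `-i y` -/
noncomputable def A0 : BB →L[ℂ] BB := (-Complex.I) • DD (-1, 0)

/-- multiplication by `i / y` -/
noncomputable def B0 : BB →L[ℂ] BB := (8 * Complex.I) • DD (0, 1 / 8)

theorem A0_LL (φ : R) : A0 (LL φ) = LL (((-Complex.I) • idR) * φ) := by
  have h := DD_LL (-1, 0) idR (fun y => (y : ℝ)) (fun y => rfl) (fun y => (Kpos y).le)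
    (fun y => y.2.2) (by
      intro r y
      rw [ch_apply]
      congr 2
      simp) φ
  rw [A0, smul_apply, h, smul_mul_assoc, map_smul]

theorem B0_LL (φ : R) : B0 (LL φ) = LL ((Complex.I • invR) * φ) := by
  have h := DD_LL (0, 1 / 8) ((1 / 8 : ℂ) • invR) (fun y => 1 / 8 * (y : ℝ)⁻¹)
    (fun y => by rw [ContinuousMap.smul_apply, invR_apply, smul_eq_mul]; push_cast; ring)
    (fun y => by have := Kpos y; positivity)
    (fun y => by
      have h1 : (y : ℝ)⁻¹ ≤ (1 / 4 : ℝ)⁻¹ := inv_anti₀ (by norm_num) y.2.1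
      norm_num at h1 ⊢
      linarith) (by
      intro r y
      rw [ch_apply]
      have e : (-((r • ((0 : ℝ), (1 / 8 : ℝ))).1 * (y : ℝ)) +
          (r • ((0 : ℝ), (1 / 8 : ℝ))).2 / (y : ℝ)) = r * (1 / 8 * (y : ℝ)⁻¹) := by
        simp only [Prod.smul_mk, smul_eq_mul, mul_zero, zero_mul, neg_zero, zero_add]
        rw [div_eq_mul_inv (r * (1 / 8)), mul_assoc]
      rw [e]) φ
  rw [B0, smul_apply, h, smul_mul_assoc, map_smul, smul_mul_assoc, map_smul,
    smul_smul]
  congr 1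
  ring

theorem A0_norm : ‖A0‖ < 1 := by
  rw [A0, norm_smul, norm_neg, Complex.norm_I, one_mul]
  exact lt_of_le_of_lt (DD_norm _) (by norm_num)

theorem AB (φ : R) : A0 (B0 (LL φ)) = LL φ := by
  rw [B0_LL, A0_LL, ← mul_assoc]
  congr 1
  have : ((-Complex.I) • idR) * (Complex.I • invR) = 1 := by
    ext y
    rw [ContinuousMap.mul_apply, ContinuousMap.smul_apply, ContinuousMap.smul_apply, idR_apply,
      invR_apply, ContinuousMap.one_apply, smul_eq_mul, smul_eq_mul]
    have hy : ((y : ℝ) : ℂ) ≠ 0 := by exact_mod_cast (Kpos y).ne'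
    push_cast
    field_simp
    rw [Complex.I_sq]; ring
  rw [this, one_mul]

theorem BA (φ : R) : B0 (A0 (LL φ)) = LL φ := by
  rw [A0_LL, B0_LL, ← mul_assoc]
  congr 1
  have : (Complex.I • invR) * ((-Complex.I) • idR) = 1 := by
    ext y
    rw [ContinuousMap.mul_apply, ContinuousMap.smul_apply, ContinuousMap.smul_apply, idR_apply,
      invR_apply, ContinuousMap.one_apply, smul_eq_mul, smul_eq_mul]
    have hy : ((y : ℝ) : ℂ) ≠ 0 := by exact_mod_cast (Kpos y).ne'
    push_cast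
    field_simp
    rw [Complex.I_sq]; ring
  rw [this, one_mul]

theorem exp_R (a : R) (y : K) : (NormedSpace.exp a) y = Complex.exp (a y) := by
  have h := NormedSpace.map_exp (ContinuousMap.evalAlgHom ℂ ℂ y)
    (ContinuousEvalConst.continuous_eval_const y) a
  rw [Complex.exp_eq_exp_ℂ]
  exact h

/-- the exponential of a real multiple of `A0` is a translation -/
theorem expA (t : ℝ) (φ : R) : ‖NormedSpace.exp ((t : ℂ) • A0) (LL φ)‖ ≤ ‖LL φ‖ := by
  have h := exp_LL ((t : ℂ) • A0) ((t : ℂ) • ((-Complex.I) • idR)) (by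
    intro φ
    rw [smul_apply, A0_LL, smul_mul_assoc, smul_mul_assoc, map_smul, map_smul,
      smul_mul_assoc, map_smul]) φ
  have e : NormedSpace.exp ((t : ℂ) • ((-Complex.I) • idR)) = ch (t, 0) := by
    ext y
    rw [exp_R, ch_apply]
    congr 1
    rw [ContinuousMap.smul_apply, ContinuousMap.smul_apply, idR_apply, smul_eq_mul, smul_eq_mul]
    push_cast
    ring
  rw [h, e, LL_ch]
  calc ‖Tr (t, 0) (LL φ)‖ ≤ ‖Tr (t, 0)‖ * ‖LL φ‖ := ContinuousLinearMap.le_opNorm _ _
    _ ≤ 1 * ‖LL φ‖ := mul_le_mul_of_nonneg_right (Tr_norm _) (norm_nonneg _)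
    _ = ‖LL φ‖ := one_mul _

theorem expB (t : ℝ) (φ : R) : ‖NormedSpace.exp ((t : ℂ) • B0) (LL φ)‖ ≤ ‖LL φ‖ := by
  have h := exp_LL ((t : ℂ) • B0) ((t : ℂ) • (Complex.I • invR)) (by
    intro φ
    rw [smul_apply, B0_LL, smul_mul_assoc, smul_mul_assoc, map_smul, map_smul,
      smul_mul_assoc, map_smul]) φ
  have e : NormedSpace.exp ((t : ℂ) • (Complex.I • invR)) = ch (0, t) := by
    ext y
    rw [exp_R, ch_apply]
    congr 1
    rw [ContinuousMap.smul_apply, ContinuousMap.smul_apply, invR_apply, smul_eq_mul, smul_eq_mul]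
    push_cast
    ring
  rw [h, e, LL_ch]
  calc ‖Tr (0, t) (LL φ)‖ ≤ ‖Tr (0, t)‖ * ‖LL φ‖ := ContinuousLinearMap.le_opNorm _ _
    _ ≤ 1 * ‖LL φ‖ := mul_le_mul_of_nonneg_right (Tr_norm _) (norm_nonneg _)
    _ = ‖LL φ‖ := one_mul _

/-- the function `-(1 + i y) / (1 - i y)` -/
noncomputable def wR : R := ⟨fun y => -((1 + (y : ℝ) * Complex.I) / (1 - (y : ℝ) * Complex.I)), by
  refine Continuous.neg (Continuous.div (by fun_prop) (by fun_prop) ?_)
  intro y h
  have := congrArg Complex.re h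
  simp at this⟩

theorem wR_apply (y : K) :
    wR y = -((1 + (y : ℝ) * Complex.I) / (1 - (y : ℝ) * Complex.I)) := rfl

theorem arg_eq (y : ℝ) : (1 + (y : ℂ) * Complex.I) / (1 - (y : ℂ) * Complex.I) =
    Complex.exp (((2 * Real.arctan y : ℝ) : ℂ) * Complex.I) := by
  have hs : Real.cos (Real.arctan y) ≠ 0 := (Real.cos_arctan_pos y).ne'
  have ht : y * Real.cos (Real.arctan y) = Real.sin (Real.arctan y) := by
    conv_lhs => rw [← Real.tan_arctan y]
    rw [Real.arctan_tan (Real.neg_pi_div_two_lt_arctan _) (Real.arctan_lt_pi_div_two _),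
      Real.tan_mul_cos hs]
  obtain ⟨θ, hθ⟩ : ∃ θ, θ = Real.arctan y := ⟨_, rfl⟩
  rw [← hθ] at hs ht ⊢
  have hsC : (Real.cos θ : ℂ) ≠ 0 := by exact_mod_cast hs
  have htC : (y : ℂ) * Real.cos θ = Real.sin θ := by exact_mod_cast ht
  have e1 : (Real.cos θ : ℂ) * (1 + (y : ℂ) * Complex.I) = Complex.exp ((θ : ℂ) * Complex.I) := by
    rw [Complex.exp_mul_I, ← Complex.ofReal_cos, ← Complex.ofReal_sin, ← htC]
    ring
  have e2 : (Real.cos θ : ℂ) * (1 - (y : ℂ) * Complex.I) = Complex.exp (-((θ : ℂ) * Complex.I)) := by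
    rw [← neg_mul, Complex.exp_mul_I, Complex.cos_neg, Complex.sin_neg, ← Complex.ofReal_cos,
      ← Complex.ofReal_sin, ← htC]
    ring
  rw [← mul_div_mul_left _ _ hsC, e1, e2, ← Complex.exp_sub]
  congr 1
  push_cast
  ring

/-- smallness of the norm -/
theorem small (ε : ℝ) (hε : 0 < ε) : ∃ n : ℕ, ‖LL (wR ^ n)‖ ≤ ε := by
  obtain ⟨δ, hδ⟩ : ∃ δ, δ = ε / 4 := ⟨_, rfl⟩
  have hδ0 : 0 < δ := by rw [hδ]; positivity
  obtain ⟨n, hn⟩ := exists_nat_gt ((24 / ε) ^ 2 / δ)
  have hn0 : 0 < (n : ℝ) := lt_trans (by positivity) hn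
  have hs : 24 / ε ≤ Real.sqrt (n * δ) := by
    apply Real.le_sqrt_of_sq_le
    rw [div_lt_iff₀ hδ0] at hn
    exact hn.le
  refine ⟨n, ?_⟩
  apply (BoundedContinuousFunction.norm_le hε.le).2
  intro p
  rw [LL_apply, II_apply]
  have e : ∫ y in (1 / 4 : ℝ)..(1 / 2), (wR ^ n * ch p) (projIcc (1 / 4) (1 / 2) hab y) =
      ∫ y in (1 / 4 : ℝ)..(1 / 2), (-1) ^ n *
        Complex.exp ((ph n p.1 p.2 y : ℂ) * Complex.I) := by
    apply intervalIntegral.integral_congr
    intro y hy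
    rw [uIcc_of_le hab] at hy
    have hp : projIcc (1 / 4) (1 / 2) hab y = ⟨y, hy⟩ := projIcc_of_mem hab hy
    simp only
    rw [hp, ContinuousMap.mul_apply, ContinuousMap.pow_apply, wR_apply, ch_apply]
    simp only
    rw [arg_eq, neg_pow, mul_assoc, ← Complex.exp_nat_mul, ← Complex.exp_add, ph]
    congr 2
    push_cast
    ring
  rw [e, intervalIntegral.integral_const_mul, norm_mul, norm_pow, norm_neg, norm_one, one_pow,
    one_mul]
  refine (osc n p.1 p.2 δ hn0 hδ0).trans ?_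
  have h6 : 6 / Real.sqrt (n * δ) ≤ ε / 4 := by
    rw [div_le_iff₀ (lt_of_lt_of_le (by positivity) hs)]
    have : ε / 4 * (24 / ε) = 6 := by field_simp; norm_num
    rw [← this]
    exact mul_le_mul_of_nonneg_left hs (by positivity)
  rw [hδ]
  rw [hδ] at h6
  linarith

theorem LL_one : 1 / 4 ≤ ‖LL 1‖ := by
  have h := (LL 1).norm_coe_le_norm (0, 0)
  refine le_trans (le_of_eq ?_) h
  rw [LL_apply, II_apply]
  have : ∀ y : ℝ, ((1 : R) * ch (0, 0)) (projIcc (1 / 4) (1 / 2) hab y) = 1 := by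
    intro y
    rw [one_mul, ch_apply]
    simp
  simp only [this]
  rw [intervalIntegral.integral_const]
  norm_num

/-- the function `-(1 - i y) / (1 + i y)` -/
noncomputable def vR : R := ⟨fun y => -((1 - (y : ℝ) * Complex.I) / (1 + (y : ℝ) * Complex.I)), by
  refine Continuous.neg (Continuous.div (by fun_prop) (by fun_prop) ?_)
  intro y h
  have := congrArg Complex.re h
  simp at this⟩

theorem vR_apply (y : K) :
    vR y = -((1 - (y : ℝ) * Complex.I) / (1 + (y : ℝ) * Complex.I)) := rfl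

theorem ne1 (y : ℝ) : (1 : ℂ) + (y : ℂ) * Complex.I ≠ 0 := by
  intro h
  have := congrArg Complex.re h
  simp at this

theorem ne2 (y : ℝ) : (1 : ℂ) - (y : ℂ) * Complex.I ≠ 0 := by
  intro h
  have := congrArg Complex.re h
  simp at this

theorem vw : vR * wR = 1 := by
  ext y
  rw [ContinuousMap.mul_apply, vR_apply, wR_apply, ContinuousMap.one_apply]
  have := ne1 y
  have := ne2 y
  field_simp

/-- `1 / (-1 - i y)` -/
noncomputable def rR : R := ⟨fun y => -(1 + (y : ℝ) * Complex.I)⁻¹, by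
  refine Continuous.neg (Continuous.inv₀ (by fun_prop) ?_)
  intro y
  exact ne1 y⟩

theorem rR_apply (y : K) : rR y = -(1 + (y : ℝ) * Complex.I)⁻¹ := rfl

/-- `(A0 - 1)` applied to the preimage -/
theorem A0_sub (φ : R) : A0 (LL (rR * φ)) - LL (rR * φ) = LL φ := by
  rw [A0_LL, ← map_sub]
  congr 1
  ext y
  rw [ContinuousMap.sub_apply, ContinuousMap.mul_apply, ContinuousMap.mul_apply,
    ContinuousMap.smul_apply, idR_apply, rR_apply, smul_eq_mul]
  have := mul_inv_cancel₀ (ne1 y)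
  linear_combination (φ y) * this

theorem A0_add (φ : R) : A0 (LL (rR * φ)) + LL (rR * φ) = LL (vR * φ) := by
  rw [A0_LL, ← map_add]
  congr 1
  ext y
  rw [ContinuousMap.add_apply, ContinuousMap.mul_apply, ContinuousMap.mul_apply,
    ContinuousMap.mul_apply, ContinuousMap.smul_apply, idR_apply, rR_apply, smul_eq_mul, vR_apply]
  have := ne1 y
  field_simp
  ring

end Pool.Agent.Q141.Cog
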