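import Pool.Agent.Q141.Cog.VdC

/-! # The Banach space -/

set_option autoImplicit false

open MeasureTheory Set Filter Topology
open scoped BoundedContinuousFunction

namespace Pool.Agent.Q141.Cog

/-- the interval of frequencies -/
abbrev K : Type := Set.Icc (1 / 4 : ℝ) (1 / 2)

/-- continuous functions on the interval -/
abbrev R : Type := C(K, ℂ)

/-- bounded continuous functions of two real variables -/
abbrev BB : Type := (ℝ × ℝ) →ᵇ ℂ

theorem Kpos (y : K) : 0 < (y : ℝ) := by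
  have := y.2.1
  linarith

/-- the characters `exp (i (-s y + t / y))`, as a continuous function of `(s, t)` -/
noncomputable def ch : C(ℝ × ℝ, R) := ContinuousMap.curry
  ⟨fun q : (ℝ × ℝ) × K =>
    Complex.exp (((-(q.1.1 * (q.2 : ℝ)) + q.1.2 / (q.2 : ℝ) : ℝ) : ℂ) * Complex.I), by
    have h : Continuous fun q : (ℝ × ℝ) × K => (-(q.1.1 * (q.2 : ℝ)) + q.1.2 / (q.2 : ℝ) : ℝ) := by
      refine Continuous.add (by fun_prop) (Continuous.div (by fun_prop) (by fun_prop) ?_)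
      intro q
      exact (Kpos q.2).ne'
    fun_prop⟩

theorem ch_apply (p : ℝ × ℝ) (y : K) : ch p y =
    Complex.exp (((-(p.1 * (y : ℝ)) + p.2 / (y : ℝ) : ℝ) : ℂ) * Complex.I) := rfl

theorem ch_add (p q : ℝ × ℝ) : ch (p + q) = ch p * ch q := by
  ext y
  rw [ContinuousMap.mul_apply, ch_apply, ch_apply, ch_apply, ← Complex.exp_add]
  congr 1
  rw [Prod.fst_add, Prod.snd_add]
  push_cast
  ring

theorem norm_ch (p : ℝ × ℝ) : ‖ch p‖ ≤ 1 := by
  rw [ContinuousMap.norm_le _ zero_le_one]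
  intro y
  rw [ch_apply, Complex.norm_exp_ofReal_mul_I]

theorem hab : (1 / 4 : ℝ) ≤ 1 / 2 := by norm_num

/-- integration over the interval -/
noncomputable def II : R →L[ℂ] ℂ := LinearMap.mkContinuous
  { toFun := fun φ => ∫ y in (1 / 4 : ℝ)..(1 / 2), φ (projIcc (1 / 4) (1 / 2) hab y)
    map_add' := by
      intro φ ψ
      rw [← intervalIntegral.integral_add]
      · rfl
      · exact (φ.continuous.comp continuous_projIcc).intervalIntegrable _ _
      · exact (ψ.continuous.comp continuous_projIcc).intervalIntegrable _ _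
    map_smul' := by
      intro c φ
      rw [RingHom.id_apply, smul_eq_mul, ← intervalIntegral.integral_const_mul]
      rfl } 1 (by
    intro φ
    have := intervalIntegral.norm_integral_le_of_norm_le_const (a := 1 / 4) (b := 1 / 2)
      (C := ‖φ‖) (f := fun y => φ (projIcc (1 / 4) (1 / 2) hab y)) (fun y _ => φ.norm_coe_le_norm _)
    refine le_trans this ?_
    have h1 : |(1 / 2 - 1 / 4 : ℝ)| ≤ 1 := by rw [abs_le]; constructor <;> norm_num
    rw [mul_comm]
    exact mul_le_mul_of_nonneg_right h1 (norm_nonneg _))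

theorem II_apply (φ : R) :
    II φ = ∫ y in (1 / 4 : ℝ)..(1 / 2), φ (projIcc (1 / 4) (1 / 2) hab y) := rfl

theorem II_norm (φ : R) : ‖II φ‖ ≤ ‖φ‖ := by
  have h : ‖II‖ ≤ 1 := LinearMap.mkContinuous_norm_le _ zero_le_one _
  calc ‖II φ‖ ≤ ‖II‖ * ‖φ‖ := II.le_opNorm φ
    _ ≤ 1 * ‖φ‖ := mul_le_mul_of_nonneg_right h (norm_nonneg _)
    _ = ‖φ‖ := one_mul _

theorem II_ch (φ : R) (p : ℝ × ℝ) : ‖II (φ * ch p)‖ ≤ ‖φ‖ := by
  refine (II_norm _).trans ((norm_mul_le _ _).trans ?_)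
  calc ‖φ‖ * ‖ch p‖ ≤ ‖φ‖ * 1 := mul_le_mul_of_nonneg_left (norm_ch p) (norm_nonneg _)
    _ = ‖φ‖ := mul_one _

/-- the function `(s, t) ↦ ∫ φ(y) exp (i (-s y + t / y)) dy` -/
noncomputable def LL : R →L[ℂ] BB := LinearMap.mkContinuous
  { toFun := fun φ => BoundedContinuousFunction.ofNormedAddCommGroup (fun p => II (φ * ch p))
      (by fun_prop) ‖φ‖ (fun p => II_ch φ p)
    map_add' := by
      intro φ ψ
      ext p
      show II ((φ + ψ) * ch p) = II (φ * ch p) + II (ψ * ch p)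
      rw [add_mul, map_add]
    map_smul' := by
      intro c φ
      ext p
      show II ((c • φ) * ch p) = c • II (φ * ch p)
      rw [smul_mul_assoc, map_smul] } 1 (by
    intro φ
    rw [one_mul]
    apply (BoundedContinuousFunction.norm_le (norm_nonneg _)).2
    intro p
    exact II_ch φ p)

theorem LL_apply (φ : R) (p : ℝ × ℝ) : LL φ p = II (φ * ch p) := rfl

/-- translations -/
noncomputable def Tr (q : ℝ × ℝ) : BB →L[ℂ] BB := LinearMap.mkContinuous
  { toFun := fun F => F.compContinuous ⟨fun p => p + q, by fun_prop⟩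
    map_add' := by intro F G; ext p; rfl
    map_smul' := by intro c F; ext p; rfl } 1 (by
    intro F
    rw [one_mul]
    apply (BoundedContinuousFunction.norm_le (norm_nonneg _)).2
    intro p
    exact F.norm_coe_le_norm _)

theorem Tr_apply (q : ℝ × ℝ) (F : BB) (p : ℝ × ℝ) : Tr q F p = F (p + q) := rfl

theorem Tr_norm (q : ℝ × ℝ) : ‖Tr q‖ ≤ 1 := LinearMap.mkContinuous_norm_le _ zero_le_one _

theorem LL_ch (q : ℝ × ℝ) (φ : R) : LL (ch q * φ) = Tr q (LL φ) := by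
  ext p
  rw [Tr_apply, LL_apply, LL_apply, ch_add]
  congr 1
  ring

/-- exponentials of operators which act as multiplications -/
theorem exp_LL (A : BB →L[ℂ] BB) (a : R) (h : ∀ φ, A (LL φ) = LL (a * φ)) (φ : R) :
    NormedSpace.exp A (LL φ) = LL (NormedSpace.exp a * φ) := by
  have hk : ∀ k : ℕ, (A ^ k) (LL φ) = LL (a ^ k * φ) := by
    intro k
    induction k with
    | zero => simp
    | succ k ih =>
      have e : (A ^ (k + 1)) (LL φ) = A ((A ^ k) (LL φ)) := by rw [pow_succ']; rfl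
      rw [e, ih, h, ← mul_assoc, ← pow_succ']
  have h1 : HasSum (fun k : ℕ => ((k.factorial : ℂ)⁻¹) • A ^ k) (NormedSpace.exp A) :=
    NormedSpace.exp_series_hasSum_exp' (𝕂 := ℂ) A
  have h2 : HasSum (fun k : ℕ => ((k.factorial : ℂ)⁻¹) • a ^ k) (NormedSpace.exp a) :=
    NormedSpace.exp_series_hasSum_exp' (𝕂 := ℂ) a
  have h3 := (ContinuousLinearMap.apply ℂ BB (LL φ)).hasSum h1
  have h4 := (LL.comp ((ContinuousLinearMap.mul ℂ R).flip φ)).hasSum h2
  have e : (fun b : ℕ => (ContinuousLinearMap.apply ℂ BB (LL φ)) (((b.factorial : ℂ)⁻¹) • A ^ b)) =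
      fun b : ℕ => (LL.comp ((ContinuousLinearMap.mul ℂ R).flip φ)) (((b.factorial : ℂ)⁻¹) • a ^ b) := by
    funext k
    simp [hk, mul_comm]
  rw [e] at h3
  exact h3.unique h4

/-- the Fourier coefficients of `x ↦ x` on `[0, 1/2]` -/
noncomputable def gam (n : ℕ) : ℝ := ((-1) ^ n - 1) / (Real.pi ^ 2 * (n : ℝ) ^ 2)

theorem gam_le (n : ℕ) : |gam n| ≤ 2 / Real.pi ^ 2 * (1 / (n : ℝ) ^ 2) := by
  rw [gam, abs_div, abs_of_nonneg (by positivity : (0 : ℝ) ≤ Real.pi ^ 2 * (n : ℝ) ^ 2)]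
  have h : |((-1 : ℝ)) ^ n - 1| ≤ 2 := by
    rcases neg_one_pow_eq_or ℝ n with h | h <;> rw [h] <;> norm_num
  rw [div_mul_div_comm, mul_one]
  exact div_le_div_of_nonneg_right h (by positivity)

theorem gam_major : HasSum (fun n : ℕ => 2 / Real.pi ^ 2 * (1 / (n : ℝ) ^ 2)) (1 / 3) := by
  have h := hasSum_zeta_two.mul_left (2 / Real.pi ^ 2)
  have e : 2 / Real.pi ^ 2 * (Real.pi ^ 2 / 6) = 1 / 3 := by
    have := Real.pi_ne_zero
    field_simp
    norm_num
  rwa [e] at h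

theorem gam_series {x : ℝ} (h0 : 0 ≤ x) (h1 : x ≤ 1 / 2) :
    HasSum (fun n : ℕ => gam n * Real.cos (2 * Real.pi * n * x)) (x - 1 / 4) := by
  have e1 := hasSum_one_div_nat_pow_mul_cos (k := 1) one_ne_zero (x := x) ⟨h0, by linarith⟩
  have e2 := hasSum_one_div_nat_pow_mul_cos (k := 1) one_ne_zero (x := x + 1 / 2)
    ⟨by linarith, by linarith⟩
  have e3 := (e2.sub e1).mul_left (1 / Real.pi ^ 2)
  have hB : ∀ z : ℝ, (Polynomial.map (algebraMap ℚ ℝ) (Polynomial.bernoulli (2 * 1))).eval z =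
      z ^ 2 - z + 1 / 6 := by
    intro z
    rw [mul_one, Polynomial.eval_map, Polynomial.bernoulli]
    simp [Finset.sum_range_succ, Polynomial.eval₂_add, Polynomial.eval₂_monomial, bernoulli_one,
      bernoulli_two]
    ring
  rw [hB, hB] at e3
  have hs : 1 / Real.pi ^ 2 * ((-1) ^ (1 + 1) * (2 * Real.pi) ^ (2 * 1) / 2 / ((2 * 1).factorial : ℝ) *
      ((x + 1 / 2) ^ 2 - (x + 1 / 2) + 1 / 6) -
      (-1) ^ (1 + 1) * (2 * Real.pi) ^ (2 * 1) / 2 / ((2 * 1).factorial : ℝ) *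
      (x ^ 2 - x + 1 / 6)) = x - 1 / 4 := by
    have := Real.pi_ne_zero
    simp [Nat.factorial]
    field_simp
    ring
  rw [hs] at e3
  have ef : (fun n : ℕ => 1 / Real.pi ^ 2 * (1 / (n : ℝ) ^ (2 * 1) *
      Real.cos (2 * Real.pi * n * (x + 1 / 2)) - 1 / (n : ℝ) ^ (2 * 1) *
      Real.cos (2 * Real.pi * n * x))) = fun n : ℕ => gam n * Real.cos (2 * Real.pi * n * x) := by
    funext n
    have hc : Real.cos (2 * Real.pi * n * (x + 1 / 2)) =
        (-1) ^ n * Real.cos (2 * Real.pi * n * x) := by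
      have : 2 * Real.pi * n * (x + 1 / 2) = 2 * Real.pi * n * x + n * Real.pi := by ring
      rw [this, Real.cos_add_nat_mul_pi]
    rw [hc, gam, mul_one]
    have := Real.pi_ne_zero
    rcases Nat.eq_zero_or_pos n with h | h
    · subst h; simp
    · have : (n : ℝ) ≠ 0 := by positivity
      field_simp
  rw [ef] at e3
  exact e3

/-- the `n`-th term of the series of translations -/
noncomputable def DT (p : ℝ × ℝ) (n : ℕ) : BB →L[ℂ] BB :=
  ((gam n / 2 : ℝ) : ℂ) • (Tr ((2 * Real.pi * n) • p) + Tr (-((2 * Real.pi * n) • p)))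

theorem DT_norm (p : ℝ × ℝ) (n : ℕ) : ‖DT p n‖ ≤ 2 / Real.pi ^ 2 * (1 / (n : ℝ) ^ 2) := by
  rw [DT, norm_smul, Complex.norm_real, Real.norm_eq_abs, abs_div, abs_two]
  have h1 : ‖Tr ((2 * Real.pi * n) • p) + Tr (-((2 * Real.pi * n) • p))‖ ≤ 2 := by
    have a1 := Tr_norm ((2 * Real.pi * n) • p)
    have a2 := Tr_norm (-((2 * Real.pi * n) • p))
    exact (norm_add_le _ _).trans (by linarith)
  have h2 := gam_le n
  calc |gam n| / 2 * ‖Tr ((2 * Real.pi * n) • p) + Tr (-((2 * Real.pi * n) • p))‖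
      ≤ |gam n| / 2 * 2 := mul_le_mul_of_nonneg_left h1 (by positivity)
    _ = |gam n| := by ring
    _ ≤ _ := h2

theorem DT_summable (p : ℝ × ℝ) : Summable (DT p) :=
  Summable.of_norm_bounded gam_major.summable (DT_norm p)

/-- the operator `1/4 + ∑ γ_n (Tr(2πn p) + Tr(-2πn p)) / 2` -/
noncomputable def DD (p : ℝ × ℝ) : BB →L[ℂ] BB := (1 / 4 : ℂ) • 1 + ∑' n, DT p n

theorem DD_norm (p : ℝ × ℝ) : ‖DD p‖ ≤ 7 / 12 := by
  have h1 : ‖∑' n, DT p n‖ ≤ 1 / 3 := tsum_of_norm_bounded gam_major (DT_norm p)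
  have h2 : ‖(1 / 4 : ℂ) • (1 : BB →L[ℂ] BB)‖ ≤ 1 / 4 := by
    rw [norm_smul]
    have : ‖(1 : BB →L[ℂ] BB)‖ ≤ 1 := ContinuousLinearMap.norm_id_le
    have h3 : ‖(1 / 4 : ℂ)‖ = 1 / 4 := by norm_num
    rw [h3]
    linarith
  exact (norm_add_le _ _).trans (by linarith)

/-- `DD p` acts as multiplication by `x` -/
theorem DD_LL (p : ℝ × ℝ) (x : R) (xi : K → ℝ) (hx : ∀ y, x y = (xi y : ℂ))
    (h0 : ∀ y, 0 ≤ xi y) (h1 : ∀ y, xi y ≤ 1 / 2)
    (hch : ∀ (r : ℝ) (y : K), ch (r • p) y = Complex.exp (((r * xi y : ℝ) : ℂ) * Complex.I))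
    (φ : R) : DD p (LL φ) = LL (x * φ) := by
  -- the series in `R`
  obtain ⟨u, hu⟩ : ∃ u : ℕ → R, u = fun n => ((gam n / 2 : ℝ) : ℂ) •
    (ch ((2 * Real.pi * n) • p) + ch (-((2 * Real.pi * n) • p))) := ⟨_, rfl⟩
  have hun : ∀ n, ‖u n‖ ≤ 2 / Real.pi ^ 2 * (1 / (n : ℝ) ^ 2) := by
    intro n
    rw [hu]
    simp only
    rw [norm_smul, Complex.norm_real, Real.norm_eq_abs, abs_div, abs_two]
    have h1 : ‖ch ((2 * Real.pi * n) • p) + ch (-((2 * Real.pi * n) • p))‖ ≤ 2 := by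
      have a1 := norm_ch ((2 * Real.pi * n) • p)
      have a2 := norm_ch (-((2 * Real.pi * n) • p))
      exact (norm_add_le _ _).trans (by linarith)
    have h2 := gam_le n
    calc |gam n| / 2 * ‖ch ((2 * Real.pi * n) • p) + ch (-((2 * Real.pi * n) • p))‖
        ≤ |gam n| / 2 * 2 := mul_le_mul_of_nonneg_left h1 (by positivity)
      _ = |gam n| := by ring
      _ ≤ _ := h2
  have hus : Summable u := Summable.of_norm_bounded gam_major.summable hun
  have hsum : HasSum u (x - (1 / 4 : ℂ) • 1) := by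
    have e : ∑' n, u n = x - (1 / 4 : ℂ) • 1 := by
      ext y
      have e1 : HasSum (fun n => u n y) ((∑' n, u n) y) := by
        have := (ContinuousMap.evalCLM ℂ y : R →L[ℂ] ℂ).hasSum hus.hasSum
        exact this
      have e2 := gam_series (h0 y) (h1 y)
      have e3 : HasSum (fun n : ℕ => ((gam n * Real.cos (2 * Real.pi * n * xi y) : ℝ) : ℂ))
          ((xi y - 1 / 4 : ℝ) : ℂ) := by exact_mod_cast e2
      have e4 : (fun n => u n y) =
          fun n : ℕ => ((gam n * Real.cos (2 * Real.pi * n * xi y) : ℝ) : ℂ) := by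
        funext n
        rw [hu]
        simp only
        rw [ContinuousMap.smul_apply, ContinuousMap.add_apply, ← neg_smul, hch, hch, smul_eq_mul]
        have hcos := Complex.two_cos (((2 * Real.pi * n * xi y : ℝ)) : ℂ)
        rw [Complex.ofReal_mul (gam n), Complex.ofReal_cos]
        have e5 : (((-(2 * Real.pi * n) * xi y : ℝ)) : ℂ) * Complex.I =
            -(((2 * Real.pi * n * xi y : ℝ)) : ℂ) * Complex.I := by push_cast; ring
        rw [e5, ← hcos]
        push_cast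
        ring
      rw [e4] at e1
      rw [e1.unique e3, ContinuousMap.sub_apply, hx]
      simp
    rw [← e]
    exact hus.hasSum
  have g1 := (LL.comp ((ContinuousLinearMap.mul ℂ R).flip φ)).hasSum hsum
  have g2 := (ContinuousLinearMap.apply ℂ BB (LL φ)).hasSum (DT_summable p).hasSum
  have e : (fun b : ℕ => (ContinuousLinearMap.apply ℂ BB (LL φ)) (DT p b)) =
      fun b : ℕ => (LL.comp ((ContinuousLinearMap.mul ℂ R).flip φ)) (u b) := by
    funext k
    rw [hu]
    show DT p k (LL φ) = LL ((((gam k / 2 : ℝ) : ℂ) •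
      (ch ((2 * Real.pi * k) • p) + ch (-((2 * Real.pi * k) • p)))) * φ)
    rw [smul_mul_assoc, add_mul, map_smul, map_add, LL_ch, LL_ch, DT]
    rfl
  rw [e] at g2
  have g3 : (∑' n, DT p n) (LL φ) = LL ((x - (1 / 4 : ℂ) • 1) * φ) := g2.unique g1
  have g4 : DD p (LL φ) = (1 / 4 : ℂ) • LL φ + (∑' n, DT p n) (LL φ) := rfl
  rw [g4, g3, ← map_smul, ← map_add]
  congr 1
  rw [sub_mul, smul_mul_assoc, one_mul]
  abel

end Pool.Agent.Q141.Cog
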