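import Mathlib

/-! # Van der Corput estimates for oscillatory integrals -/

set_option autoImplicit false

open MeasureTheory intervalIntegral Set

namespace Pool.Agent.Q141.Cog

/-- splitting off a short interval -/
theorem split_le {a b : ℝ} (hab : a ≤ b) (f : ℝ → ℂ) (hf : ContinuousOn f (Icc a b))
    (hf1 : ∀ y ∈ Icc a b, ‖f y‖ ≤ 1) (c δ B : ℝ) (hδ : 0 ≤ δ) (hB : 0 ≤ B)
    (h1 : ∀ x y, a ≤ x → x ≤ y → y ≤ b → y ≤ c - δ → ‖∫ z in x..y, f z‖ ≤ B)
    (h2 : ∀ x y, a ≤ x → x ≤ y → y ≤ b → c + δ ≤ x → ‖∫ z in x..y, f z‖ ≤ B) :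
    ‖∫ z in a..b, f z‖ ≤ 2 * B + 2 * δ := by
  obtain ⟨p, hp⟩ : ∃ p, p = max a (min b (c - δ)) := ⟨_, rfl⟩
  obtain ⟨q, hq⟩ : ∃ q, q = max a (min b (c + δ)) := ⟨_, rfl⟩
  have hap : a ≤ p := by rw [hp]; exact le_max_left _ _
  have hpb : p ≤ b := by rw [hp]; exact max_le hab (min_le_left _ _)
  have haq : a ≤ q := by rw [hq]; exact le_max_left _ _
  have hqb : q ≤ b := by rw [hq]; exact max_le hab (min_le_left _ _)
  have hpq : p ≤ q := by
    rw [hp, hq]; exact max_le_max le_rfl (min_le_min le_rfl (by linarith))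
  have hqp : q - p ≤ 2 * δ := by
    rw [hp, hq]
    rcases max_cases a (min b (c + δ)) with ⟨e1, e2⟩ | ⟨e1, e2⟩ <;>
    rcases max_cases a (min b (c - δ)) with ⟨e3, e4⟩ | ⟨e3, e4⟩ <;>
    rcases min_cases b (c + δ) with ⟨e5, e6⟩ | ⟨e5, e6⟩ <;>
    rcases min_cases b (c - δ) with ⟨e7, e8⟩ | ⟨e7, e8⟩ <;> linarith
  have hint : ∀ x y, a ≤ x → x ≤ y → y ≤ b → IntervalIntegrable f volume x y := by
    intro x y h1 h2 h3
    apply ContinuousOn.intervalIntegrable
    rw [uIcc_of_le h2]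
    exact hf.mono (Icc_subset_Icc h1 h3)
  have e : ∫ z in a..b, f z = (∫ z in a..p, f z) + (∫ z in p..q, f z) + ∫ z in q..b, f z := by
    rw [integral_add_adjacent_intervals (hint a p le_rfl hap hpb) (hint p q hap hpq hqb),
      integral_add_adjacent_intervals (hint a q le_rfl haq hqb) (hint q b haq hqb le_rfl)]
  have g1 : ‖∫ z in a..p, f z‖ ≤ B := by
    rcases eq_or_lt_of_le hap with h | h
    · rw [← h]; simpa using hB
    · apply h1 a p le_rfl hap hpb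
      rw [hp] at h ⊢
      rcases max_cases a (min b (c - δ)) with ⟨e1, e2⟩ | ⟨e1, e2⟩
      · rw [e1] at h; exact absurd h (lt_irrefl _)
      · rw [e1]; exact min_le_right _ _
  have g2 : ‖∫ z in q..b, f z‖ ≤ B := by
    rcases eq_or_lt_of_le hqb with h | h
    · rw [← h]; simpa using hB
    · apply h2 q b haq hqb le_rfl
      rw [hq] at h ⊢
      rcases min_cases b (c + δ) with ⟨e5, e6⟩ | ⟨e5, e6⟩
      · rw [e5, max_eq_right hab] at h; exact absurd h (lt_irrefl _)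
      · rw [e5]; exact le_max_right _ _
  have g3 : ‖∫ z in p..q, f z‖ ≤ 2 * δ := by
    have := norm_integral_le_of_norm_le_const (a := p) (b := q) (C := 1) (f := f) (by
      intro z hz
      rw [uIoc_of_le hpq] at hz
      exact hf1 z ⟨hap.trans hz.1.le, hz.2.trans hqb⟩)
    rw [one_mul, abs_of_nonneg (by linarith)] at this
    linarith
  rw [e]
  calc _ ≤ ‖∫ z in a..p, f z‖ + ‖∫ z in p..q, f z‖ + ‖∫ z in q..b, f z‖ := norm_add₃_le
    _ ≤ 2 * B + 2 * δ := by linarith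

/-- sign structure of a strictly increasing function -/
theorem zero_pt {a b : ℝ} (hab : a ≤ b) (h : ℝ → ℝ) (hc : ContinuousOn h (Icc a b)) (lam : ℝ)
    (hl : 0 ≤ lam) (hi : ∀ x ∈ Icc a b, ∀ y ∈ Icc a b, x ≤ y → lam * (y - x) ≤ h y - h x) :
    ∃ c : ℝ, ∀ δ : ℝ, 0 < δ → ∀ y ∈ Icc a b, (y ≤ c - δ → h y ≤ -(lam * δ)) ∧
      (c + δ ≤ y → lam * δ ≤ h y) := by
  by_cases h1 : 0 ≤ h a
  · refine ⟨a, fun δ hδ y hy => ⟨fun h2 => ?_, fun h2 => ?_⟩⟩
    · exact absurd hy.1 (by linarith)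
    · have := hi a (left_mem_Icc.2 hab) y hy hy.1
      nlinarith
  by_cases h2 : h b ≤ 0
  · refine ⟨b, fun δ hδ y hy => ⟨fun h3 => ?_, fun h3 => ?_⟩⟩
    · have := hi y hy b (right_mem_Icc.2 hab) hy.2
      nlinarith
    · exact absurd hy.2 (by linarith)
  push Not at h1 h2
  obtain ⟨c, hcm, hc0⟩ := intermediate_value_Icc hab hc ⟨h1.le, h2.le⟩
  refine ⟨c, fun δ hδ y hy => ⟨fun h3 => ?_, fun h3 => ?_⟩⟩
  · have := hi y hy c hcm (by linarith)
    rw [hc0] at this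
    nlinarith
  · have := hi c hcm y hy (by linarith)
    rw [hc0] at this
    nlinarith

/-- first derivative test -/
theorem vdc1 {a b : ℝ} (hab : a ≤ b) (P P1 P2 : ℝ → ℝ)
    (hP : ∀ y ∈ Icc a b, HasDerivAt P (P1 y) y) (hP1 : ∀ y ∈ Icc a b, HasDerivAt P1 (P2 y) y)
    (hP2 : ContinuousOn P2 (Icc a b)) (h2 : ∀ y ∈ Icc a b, 0 ≤ P2 y) (lam : ℝ) (hl : 0 < lam)
    (h : (∀ y ∈ Icc a b, lam ≤ P1 y) ∨ (∀ y ∈ Icc a b, P1 y ≤ -lam)) :
    ‖∫ y in a..b, Complex.exp ((P y : ℂ) * Complex.I)‖ ≤ 2 / lam := by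
  have hne : ∀ y ∈ Icc a b, P1 y ≠ 0 := by
    intro y hy h0
    rcases h with h | h
    · have := h y hy; linarith
    · have := h y hy; linarith
  have hcP : ContinuousOn P (Icc a b) := fun y hy => (hP y hy).continuousAt.continuousWithinAt
  have hcP1 : ContinuousOn P1 (Icc a b) := fun y hy => (hP1 y hy).continuousAt.continuousWithinAt
  have huI : uIcc a b = Icc a b := uIcc_of_le hab
  have hE : ContinuousOn (fun y => Complex.exp ((P y : ℂ) * Complex.I)) (Icc a b) := by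
    fun_prop
  have hneC : ∀ y ∈ Icc a b, (P1 y : ℂ) ≠ 0 := fun y hy => by exact_mod_cast hne y hy
  -- antiderivative
  obtain ⟨U, hU⟩ : ∃ U : ℝ → ℂ, U = fun y => Complex.exp ((P y : ℂ) * Complex.I) *
    (-Complex.I * (P1 y : ℂ)⁻¹) := ⟨_, rfl⟩
  obtain ⟨W, hW⟩ : ∃ W : ℝ → ℂ, W = fun y => Complex.exp ((P y : ℂ) * Complex.I) *
    (Complex.I * (P2 y : ℂ) / (P1 y : ℂ) ^ 2) := ⟨_, rfl⟩
  have hUd : ∀ y ∈ Icc a b, HasDerivAt U (Complex.exp ((P y : ℂ) * Complex.I) + W y) y := by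
    intro y hy
    have d1 : HasDerivAt (fun y => Complex.exp ((P y : ℂ) * Complex.I))
        (Complex.exp ((P y : ℂ) * Complex.I) * ((P1 y : ℂ) * Complex.I)) y :=
      ((hP y hy).ofReal_comp.mul_const Complex.I).cexp
    have d2 : HasDerivAt (fun y => -Complex.I * (P1 y : ℂ)⁻¹)
        (-Complex.I * (-(P2 y : ℂ) / (P1 y : ℂ) ^ 2)) y :=
      ((hP1 y hy).ofReal_comp.inv (hneC y hy)).const_mul (-Complex.I)
    have d3 := d1.mul d2
    rw [hU]
    refine d3.congr_deriv ?_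
    rw [hW]
    have := hneC y hy
    have hI := Complex.I_sq
    field_simp
    linear_combination (-((P1 y : ℂ) ^ 2)) * hI
  have hWc : ContinuousOn W (Icc a b) := by
    rw [hW]
    refine hE.mul ?_
    refine ContinuousOn.div (by fun_prop) (by fun_prop) ?_
    intro y hy
    exact pow_ne_zero _ (hneC y hy)
  have hi1 : IntervalIntegrable (fun y => Complex.exp ((P y : ℂ) * Complex.I)) volume a b := by
    apply ContinuousOn.intervalIntegrable; rwa [huI]
  have hi2 : IntervalIntegrable W volume a b := by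
    apply ContinuousOn.intervalIntegrable; rwa [huI]
  have hF : ∫ y in a..b, (Complex.exp ((P y : ℂ) * Complex.I) + W y) = U b - U a := by
    apply integral_eq_sub_of_hasDerivAt
    · intro y hy
      rw [huI] at hy
      exact hUd y hy
    · exact hi1.add hi2
  rw [integral_add hi1 hi2] at hF
  have hmain : ∫ y in a..b, Complex.exp ((P y : ℂ) * Complex.I) = U b - U a - ∫ y in a..b, W y := by
    rw [← hF]; ring
  have nU : ∀ y ∈ Icc a b, ‖U y‖ = |P1 y|⁻¹ := by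
    intro y hy
    rw [hU]
    simp [Complex.norm_exp]
  have nW : ∀ y ∈ Icc a b, ‖W y‖ = P2 y / P1 y ^ 2 := by
    intro y hy
    rw [hW]
    simp [Complex.norm_exp, abs_of_nonneg (h2 y hy)]
  have hWi : ‖∫ y in a..b, W y‖ ≤ (P1 a)⁻¹ - (P1 b)⁻¹ := by
    have i3 : IntervalIntegrable (fun y => P2 y / P1 y ^ 2) volume a b := by
      apply ContinuousOn.intervalIntegrable; rw [huI]
      exact hP2.div (hcP1.pow 2) fun y hy => pow_ne_zero _ (hne y hy)
    have e3 : ∫ y in a..b, P2 y / P1 y ^ 2 = (P1 a)⁻¹ - (P1 b)⁻¹ := by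
      have : ∫ y in a..b, P2 y / P1 y ^ 2 = (-(P1 b)⁻¹) - (-(P1 a)⁻¹) := by
        apply integral_eq_sub_of_hasDerivAt (f := fun y => -(P1 y)⁻¹)
        · intro y hy
          rw [huI] at hy
          refine ((hP1 y hy).inv (hne y hy)).neg.congr_deriv ?_
          ring
        · exact i3
      rw [this]; ring
    rw [← e3]
    refine (intervalIntegral.norm_integral_le_integral_norm hab).trans (le_of_eq ?_)
    apply integral_congr
    intro y hy
    rw [huI] at hy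
    exact nW y hy
  have ha : a ∈ Icc a b := left_mem_Icc.2 hab
  have hb : b ∈ Icc a b := right_mem_Icc.2 hab
  have hfin : ‖∫ y in a..b, Complex.exp ((P y : ℂ) * Complex.I)‖ ≤
      |P1 b|⁻¹ + |P1 a|⁻¹ + ((P1 a)⁻¹ - (P1 b)⁻¹) := by
    rw [hmain]
    refine (norm_sub_le _ _).trans ?_
    refine add_le_add ((norm_sub_le _ _).trans ?_) hWi
    rw [nU a ha, nU b hb]
  refine hfin.trans ?_
  rcases h with h | h
  · have p1 := h a ha
    have p2 := h b hb
    rw [abs_of_pos (by linarith : 0 < P1 b), abs_of_pos (by linarith : 0 < P1 a)]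
    have : (P1 a)⁻¹ ≤ lam⁻¹ := inv_anti₀ hl p1
    rw [div_eq_mul_inv]
    linarith
  · have p1 := h a ha
    have p2 := h b hb
    rw [abs_of_neg (by linarith : P1 b < 0), abs_of_neg (by linarith : P1 a < 0)]
    have : (-(P1 b))⁻¹ ≤ lam⁻¹ := inv_anti₀ hl (by linarith)
    rw [div_eq_mul_inv]
    rw [inv_neg] at this ⊢
    rw [inv_neg]
    linarith

/-- second derivative test -/
theorem vdc2 {a b : ℝ} (hab : a ≤ b) (P P1 P2 : ℝ → ℝ)
    (hP : ∀ y ∈ Icc a b, HasDerivAt P (P1 y) y) (hP1 : ∀ y ∈ Icc a b, HasDerivAt P1 (P2 y) y)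
    (hP2 : ContinuousOn P2 (Icc a b)) (lam : ℝ) (hl : 0 < lam) (h2 : ∀ y ∈ Icc a b, lam ≤ P2 y) :
    ‖∫ y in a..b, Complex.exp ((P y : ℂ) * Complex.I)‖ ≤ 6 / Real.sqrt lam := by
  have hcP : ContinuousOn P (Icc a b) := fun y hy => (hP y hy).continuousAt.continuousWithinAt
  have hcP1 : ContinuousOn P1 (Icc a b) := fun y hy => (hP1 y hy).continuousAt.continuousWithinAt
  have hE : ContinuousOn (fun y => Complex.exp ((P y : ℂ) * Complex.I)) (Icc a b) := by
    fun_prop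
  have hinc : ∀ x ∈ Icc a b, ∀ y ∈ Icc a b, x ≤ y → lam * (y - x) ≤ P1 y - P1 x := by
    apply (convex_Icc a b).mul_sub_le_image_sub_of_le_deriv hcP1
    · intro y hy
      rw [interior_Icc] at hy
      exact (hP1 y (Ioo_subset_Icc_self hy)).differentiableAt.differentiableWithinAt
    · intro y hy
      rw [interior_Icc] at hy
      rw [(hP1 y (Ioo_subset_Icc_self hy)).deriv]
      exact h2 y (Ioo_subset_Icc_self hy)
  obtain ⟨c, hc⟩ := zero_pt hab P1 hcP1 lam hl.le hinc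
  have hs : 0 < Real.sqrt lam := Real.sqrt_pos.2 hl
  have hδ : 0 < (Real.sqrt lam)⁻¹ := inv_pos.2 hs
  have hld : lam * (Real.sqrt lam)⁻¹ = Real.sqrt lam := by
    nth_rewrite 1 [← Real.mul_self_sqrt hl.le]
    field_simp
  have key := split_le hab (fun y => Complex.exp ((P y : ℂ) * Complex.I)) hE
    (fun y _ => by simp [Complex.norm_exp]) c (Real.sqrt lam)⁻¹ (2 / Real.sqrt lam) hδ.le
    (by positivity)
    (by
      intro x y hx hxy hy hyc
      have hsub : Icc x y ⊆ Icc a b := Icc_subset_Icc hx hy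
      refine vdc1 hxy P P1 P2 (fun z hz => hP z (hsub hz)) (fun z hz => hP1 z (hsub hz))
        (hP2.mono hsub) (fun z hz => hl.le.trans (h2 z (hsub hz))) _ hs (Or.inr ?_)
      intro z hz
      have := (hc _ hδ z (hsub hz)).1 (hz.2.trans hyc)
      rwa [hld] at this)
    (by
      intro x y hx hxy hy hxc
      have hsub : Icc x y ⊆ Icc a b := Icc_subset_Icc hx hy
      refine vdc1 hxy P P1 P2 (fun z hz => hP z (hsub hz)) (fun z hz => hP1 z (hsub hz))
        (hP2.mono hsub) (fun z hz => hl.le.trans (h2 z (hsub hz))) _ hs (Or.inl ?_)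
      intro z hz
      have := (hc _ hδ z (hsub hz)).2 (hxc.trans hz.1)
      rwa [hld] at this)
  refine key.trans (le_of_eq ?_)
  rw [div_eq_mul_inv, div_eq_mul_inv]
  ring

/-- second derivative test, negative second derivative -/
theorem vdc2' {a b : ℝ} (hab : a ≤ b) (P P1 P2 : ℝ → ℝ)
    (hP : ∀ y ∈ Icc a b, HasDerivAt P (P1 y) y) (hP1 : ∀ y ∈ Icc a b, HasDerivAt P1 (P2 y) y)
    (hP2 : ContinuousOn P2 (Icc a b)) (lam : ℝ) (hl : 0 < lam) (h2 : ∀ y ∈ Icc a b, P2 y ≤ -lam) :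
    ‖∫ y in a..b, Complex.exp ((P y : ℂ) * Complex.I)‖ ≤ 6 / Real.sqrt lam := by
  have h := vdc2 hab (fun y => -P y) (fun y => -P1 y) (fun y => -P2 y)
    (fun y hy => (hP y hy).neg) (fun y hy => (hP1 y hy).neg) hP2.neg lam hl
    (fun y hy => by have := h2 y hy; linarith)
  have e : ∫ y in a..b, Complex.exp (((-P y : ℝ) : ℂ) * Complex.I) =
      (starRingEnd ℂ) (∫ y in a..b, Complex.exp ((P y : ℂ) * Complex.I)) := by
    rw [integral_of_le hab, integral_of_le hab, ← integral_conj]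
    congr 1
    funext y
    rw [← Complex.exp_conj]
    congr 1
    simp
  rw [e, RCLike.norm_conj] at h
  exact h

/-- the phase -/
noncomputable def ph (n s t y : ℝ) : ℝ := 2 * n * Real.arctan y - s * y + t / y

/-- its derivative -/
noncomputable def ph1 (n s t y : ℝ) : ℝ := 2 * n / (1 + y ^ 2) - s - t / y ^ 2

/-- its second derivative -/
noncomputable def ph2 (n t y : ℝ) : ℝ := -(4 * n * y) / (1 + y ^ 2) ^ 2 + 2 * t / y ^ 3

theorem ph_deriv (n s t y : ℝ) (hy : 0 < y) : HasDerivAt (ph n s t) (ph1 n s t y) y := by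
  have d1 : HasDerivAt (fun y => 2 * n * Real.arctan y) (2 * n * (1 / (1 + y ^ 2))) y :=
    (Real.hasDerivAt_arctan y).const_mul _
  have d2 : HasDerivAt (fun y : ℝ => s * y) (s * 1) y := (hasDerivAt_id y).const_mul _
  have d3 : HasDerivAt (fun y : ℝ => t * y⁻¹) (t * (-(y ^ 2)⁻¹)) y :=
    (hasDerivAt_inv hy.ne').const_mul _
  have h := (d1.sub d2).add d3
  have e : ph n s t = fun y => 2 * n * Real.arctan y - s * y + t * y⁻¹ := by
    funext z; rw [ph, div_eq_mul_inv]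
  rw [e]
  refine h.congr_deriv ?_
  rw [ph1]
  field_simp
  ring

theorem ph1_deriv (n s t y : ℝ) (hy : 0 < y) : HasDerivAt (ph1 n s t) (ph2 n t y) y := by
  have hp : HasDerivAt (fun y : ℝ => 1 + y ^ 2) (2 * y) y := by
    have := (hasDerivAt_pow 2 y).const_add 1
    simpa using this
  have d1 : HasDerivAt (fun y : ℝ => 2 * n * (1 + y ^ 2)⁻¹)
      (2 * n * (-(2 * y) / (1 + y ^ 2) ^ 2)) y :=
    (hp.inv (by positivity)).const_mul _
  have hq : HasDerivAt (fun y : ℝ => y ^ 2) (2 * y) y := by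
    have := hasDerivAt_pow 2 y
    simpa using this
  have d3 : HasDerivAt (fun y : ℝ => t * (y ^ 2)⁻¹) (t * (-(2 * y) / (y ^ 2) ^ 2)) y :=
    (hq.inv (by positivity)).const_mul _
  have h := (d1.sub_const s).sub d3
  have e : ph1 n s t = fun y => 2 * n * (1 + y ^ 2)⁻¹ - s - t * (y ^ 2)⁻¹ := by
    funext z; rw [ph1, div_eq_mul_inv, div_eq_mul_inv]
  rw [e]
  refine h.congr_deriv ?_
  rw [ph2]
  field_simp
  ring

theorem ratio_inc {x y : ℝ} (hx : 1 / 4 ≤ x) (hy : y ≤ 1 / 2) (hxy : x ≤ y) :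
    3 / 80 * (y - x) ≤ (y ^ 2 / (1 + y ^ 2)) ^ 2 - (x ^ 2 / (1 + x ^ 2)) ^ 2 := by
  have h1 : 8 / 25 * (y - x) ≤ y ^ 2 / (1 + y ^ 2) - x ^ 2 / (1 + x ^ 2) := by
    rw [div_sub_div _ _ (by positivity) (by positivity), le_div_iff₀ (by positivity)]
    have e : y ^ 2 * (1 + x ^ 2) - (1 + y ^ 2) * x ^ 2 = (y - x) * (y + x) := by ring
    rw [e, mul_assoc, mul_comm (8 / 25) _, mul_assoc]
    apply mul_le_mul_of_nonneg_left _ (by linarith)
    have hx2 : x ^ 2 ≤ 1 / 4 := by nlinarith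
    have hy2 : y ^ 2 ≤ 1 / 4 := by nlinarith
    nlinarith [mul_nonneg (sub_nonneg.2 hx2) (sub_nonneg.2 hy2), sq_nonneg x, sq_nonneg y]
  have h2 : ∀ z : ℝ, 1 / 4 ≤ z → 1 / 17 ≤ z ^ 2 / (1 + z ^ 2) := by
    intro z hz
    rw [div_le_div_iff₀ (by norm_num) (by positivity)]
    nlinarith
  have h3 := h2 x hx
  have h4 := h2 y (hx.trans hxy)
  have e : (y ^ 2 / (1 + y ^ 2)) ^ 2 - (x ^ 2 / (1 + x ^ 2)) ^ 2 =
      (y ^ 2 / (1 + y ^ 2) - x ^ 2 / (1 + x ^ 2)) * (y ^ 2 / (1 + y ^ 2) + x ^ 2 / (1 + x ^ 2)) := by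
    ring
  rw [e]
  nlinarith [mul_nonneg (sub_nonneg.2 h1) (by linarith : 0 ≤ y ^ 2 / (1 + y ^ 2) + x ^ 2 / (1 + x ^ 2) - 2 / 17),
    mul_nonneg (by linarith : 0 ≤ y - x) (by linarith : 0 ≤ y ^ 2 / (1 + y ^ 2) + x ^ 2 / (1 + x ^ 2) - 2 / 17)]

/-- the oscillatory integral tends to zero, uniformly in `s, t` -/
theorem osc (n s t δ : ℝ) (hn : 0 < n) (hδ : 0 < δ) :
    ‖∫ y in (1 / 4 : ℝ)..(1 / 2), Complex.exp ((ph n s t y : ℂ) * Complex.I)‖ ≤
      2 * (6 / Real.sqrt (n * δ)) + 2 * δ := by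
  have hab : (1 / 4 : ℝ) ≤ 1 / 2 := by norm_num
  have hpos : ∀ y ∈ Icc (1 / 4 : ℝ) (1 / 2), 0 < y := fun y hy => by linarith [hy.1]
  have hP := fun y (hy : y ∈ Icc (1 / 4 : ℝ) (1 / 2)) => ph_deriv n s t y (hpos y hy)
  have hP1 := fun y (hy : y ∈ Icc (1 / 4 : ℝ) (1 / 2)) => ph1_deriv n s t y (hpos y hy)
  have hP2 : ContinuousOn (ph2 n t) (Icc (1 / 4) (1 / 2)) := by
    unfold ph2
    refine ContinuousOn.add (ContinuousOn.div (by fun_prop) (by fun_prop) ?_)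
      (ContinuousOn.div (by fun_prop) (by fun_prop) ?_)
    · intro y _; positivity
    · intro y hy; exact pow_ne_zero _ (hpos y hy).ne'
  have hcP : ContinuousOn (ph n s t) (Icc (1 / 4) (1 / 2)) :=
    fun y hy => (hP y hy).continuousAt.continuousWithinAt
  have hE : ContinuousOn (fun y => Complex.exp ((ph n s t y : ℂ) * Complex.I))
      (Icc (1 / 4) (1 / 2)) := by
    fun_prop
  -- the function `h = 4 n (y²/(1+y²))² - 2 t`
  obtain ⟨h, hh⟩ : ∃ h : ℝ → ℝ, h = fun y => 4 * n * (y ^ 2 / (1 + y ^ 2)) ^ 2 - 2 * t := ⟨_, rfl⟩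
  have hph : ∀ y : ℝ, 0 < y → ph2 n t y * y ^ 3 = - h y := by
    intro y hy
    rw [ph2, hh]
    field_simp
    ring
  have hhc : ContinuousOn h (Icc (1 / 4) (1 / 2)) := by
    rw [hh]
    refine ContinuousOn.sub (ContinuousOn.mul (by fun_prop) (ContinuousOn.pow
      (ContinuousOn.div (by fun_prop) (by fun_prop) ?_) 2)) (by fun_prop)
    intro y _; positivity
  obtain ⟨c, hc⟩ := zero_pt hab h hhc (3 / 20 * n) (by positivity) (by
    intro x hx y hy hxy
    have := ratio_inc hx.1 hy.2 hxy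
    rw [hh]
    nlinarith)
  have hnd : 0 < n * δ := mul_pos hn hδ
  have hs : 0 < Real.sqrt (n * δ) := Real.sqrt_pos.2 hnd
  have hy3 : ∀ y ∈ Icc (1 / 4 : ℝ) (1 / 2), 0 < y ^ 3 ∧ y ^ 3 ≤ 1 / 8 := by
    intro y hy
    have := hpos y hy
    refine ⟨by positivity, ?_⟩
    have h1 := pow_le_pow_left₀ this.le hy.2 3
    norm_num at h1 ⊢
    exact h1
  refine split_le hab _ hE (fun y _ => by simp [Complex.norm_exp]) c δ (6 / Real.sqrt (n * δ)) hδ.le
    (by positivity) ?_ ?_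
  · intro x y hx hxy hy hyc
    have hsub : Icc x y ⊆ Icc (1 / 4) (1 / 2) := Icc_subset_Icc hx hy
    refine vdc2 hxy _ _ _ (fun z hz => hP z (hsub hz)) (fun z hz => hP1 z (hsub hz))
        (hP2.mono hsub) (n * δ) hnd ?_
    intro z hz
    have h1 := (hc δ hδ z (hsub hz)).1 (hz.2.trans hyc)
    have h2 := hph z (hpos z (hsub hz))
    obtain ⟨h3, h4⟩ := hy3 z (hsub hz)
    by_contra h5
    push Not at h5
    nlinarith
  · intro x y hx hxy hy hxc
    have hsub : Icc x y ⊆ Icc (1 / 4) (1 / 2) := Icc_subset_Icc hx hy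
    refine vdc2' hxy _ _ _ (fun z hz => hP z (hsub hz)) (fun z hz => hP1 z (hsub hz))
        (hP2.mono hsub) (n * δ) hnd ?_
    intro z hz
    have h1 := (hc δ hδ z (hsub hz)).2 (hxc.trans hz.1)
    have h2 := hph z (hpos z (hsub hz))
    obtain ⟨h3, h4⟩ := hy3 z (hsub hz)
    by_contra h5
    push Not at h5
    nlinarith

end Pool.Agent.Q141.Cog
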